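import Mathlib
import Pool.Agent.Helper52.Wqo.Main
import Pool.Agent.Helper52.Wqo.Uni
import Pool.Agent.Helper52.Wq2.Seq

set_option autoImplicit false

universe u v

namespace Pool.Agent.Helper52.Kept.AbelianGroups266

open Pool.Agent.Helper52.Wqo
open Pool.Agent.Helper52

/-- `IsMinor H G`: `H` is a minor of `G` (pairwise disjoint nonempty connected branch sets `φ v`,
one for each vertex `v` of `H`, and an edge of `G` between `φ v` and `φ w` for every edge `v w`
of `H`; branch sets may be infinite). -/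
def IsMinor {V W : Type*} (H : SimpleGraph V) (G : SimpleGraph W) : Prop :=
  ∃ φ : V → Set W, (∀ v, (G.induce (φ v)).Connected) ∧
    (∀ v w, v ≠ w → Disjoint (φ v) (φ w)) ∧
    (∀ v w, H.Adj v w → ∃ a ∈ φ v, ∃ b ∈ φ w, G.Adj a b)

/-- `S` is an admissible generating set: it generates the group, is symmetric and does not
contain `1`. -/
def IsGen {Γ : Type*} [Group Γ] (S : Set Γ) : Prop :=
  Subgroup.closure S = ⊤ ∧ (∀ s ∈ S, s⁻¹ ∈ S) ∧ (1 : Γ) ∉ S

/-- The Cayley graph: `g` and `h` are adjacent iff `g ≠ h` and `g⁻¹ h ∈ S` or `h⁻¹ g ∈ S`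
(for a symmetric `S` with `1 ∉ S` this says exactly `g⁻¹ h ∈ S`). -/
def cay {Γ : Type*} [Group Γ] (S : Set Γ) : SimpleGraph Γ :=
  SimpleGraph.fromRel (fun a b : Γ => a⁻¹ * b ∈ S)

theorem isMinor_iff {V W : Type*} (H : SimpleGraph V) (G : SimpleGraph W) :
    IsMinor H G ↔ Wq2.Mn H G := by
  constructor
  · rintro ⟨φ, h1, h2, h3⟩
    refine ⟨φ, fun v => (Wq2.conn_iff G _).1 (h1 v), ?_, h3⟩
    intro v w x hx hy
    by_contra hne
    exact Set.disjoint_left.1 (h2 v w hne) hx hy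
  · rintro ⟨φ, h1, h2, h3⟩
    refine ⟨φ, fun v => (Wq2.conn_iff G _).2 (h1 v), ?_, h3⟩
    intro v w hne
    rw [Set.disjoint_left]
    intro x hx hy
    exact hne (h2 v w x hx hy)

/-- Infinite generating sets of abelian groups. -/
theorem complete_of_infinite {Γ : Type*} [CommGroup Γ] {S : Set Γ} (hS : Wq2.IsGen S)
    (hinf : S.Infinite) : Wq2.Mn (⊤ : SimpleGraph ℕ) (Wq2.cay S) := by
  have hg : Gen S := ⟨hS.1, hS.2.1⟩
  obtain ⟨B, h1, h2, h3, h4⟩ := complete_minor hg hinf (fun F hF a b ha hb =>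
    conn_conj hg hinf hF (fun g s hs => by rwa [mul_comm g s, mul_inv_cancel_right]) ha hb)
  refine ⟨B, ?_, h3, ?_⟩
  · intro v
    obtain ⟨r, hr⟩ := h1 v
    refine Wq2.conn_of_root hr ?_
    intro x hx
    have key : ∀ c, Relation.ReflTransGen (fun x y => x⁻¹ * y ∈ S ∧ y ∈ B v) r c →
        Relation.ReflTransGen (fun a b => (Wq2.cay S).Adj a b ∧ b ∈ B v) r c := by
      intro c hc
      induction hc with
      | refl => exact Relation.ReflTransGen.refl
      | tail _ hbc ih => exact ih.tail ⟨(Wq2.cay_adj hS _ _).2 hbc.1, hbc.2⟩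
    exact key x (h2 v r hr x hx)
  · intro v w hvw
    obtain ⟨a, ha, b, hb, hab⟩ := h4 v w hvw
    exact ⟨a, ha, b, hb, (Wq2.cay_adj hS a b).2 hab⟩

/-- The types of Cayley graphs of infinite abelian groups. -/
theorem types {Γ : Type*} [CommGroup Γ] (hΓ : Infinite Γ) {S : Set Γ} (hS : Wq2.IsGen S) :
    Wq2.Mn (⊤ : SimpleGraph ℕ) (Wq2.cay S) ∨ (∃ b, Nonempty (Wq2.cay S ≃g Wq2.Lat b)) ∨
      ∃ N, Wq2.T1 (Wq2.cay S) N := by
  by_cases hfin : S.Finite
  · rcases Wq2.ind_or_R1 hΓ hS hfin with ⟨s, hs, t, ht, hind⟩ | ⟨s, N, F, h⟩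
    · rcases Wq2.rank2 hS hs ht hind with h | h
      · exact Or.inl h
      · exact Or.inr (Or.inl h)
    · exact Or.inr (Or.inr ⟨N, h.t1⟩)
  · exact Or.inl (complete_of_infinite hS hfin)

theorem types' {Γ : Type*} [G : Group Γ] (hΓ : Infinite Γ) (hcomm : ∀ a b : Γ, a * b = b * a)
    {S : Set Γ} (hS : IsGen S) :
    Wq2.Mn (⊤ : SimpleGraph ℕ) (cay S) ∨ (∃ b, Nonempty (cay S ≃g Wq2.Lat b)) ∨
      ∃ N, Wq2.T1 (cay S) N := by
  let C : CommGroup Γ := { G with mul_comm := hcomm }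
  exact @types Γ C hΓ S hS

/-- **Cayley graphs of infinite abelian groups are well-quasi-ordered under minors.**
Let `(Γ i, S i)` be an infinite sequence of countable groups with admissible generating sets such
that each `Γ i` is infinite abelian or the complete graph on `ℕ` (equivalently, every countable
graph) is a minor of the Cayley graph. Then there are `i < j` such that the `i`-th Cayley graph
is a minor of the `j`-th. -/
theorem result (Γ : ℕ → Type u) [∀ i, Group (Γ i)] [∀ i, Countable (Γ i)]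
    (S : ∀ i, Set (Γ i)) (hS : ∀ i, IsGen (S i))
    (h : ∀ i, (Infinite (Γ i) ∧ ∀ a b : Γ i, a * b = b * a) ∨
      IsMinor (⊤ : SimpleGraph ℕ) (cay (S i))) :
    ∃ i j, i < j ∧ IsMinor (cay (S i)) (cay (S j)) := by
  obtain ⟨i, j, hij, hm⟩ := Wq2.seq_wqo Γ (fun i => cay (S i)) (fun i => by
    rcases h i with ⟨hi, hc⟩ | hu
    · exact types' hi hc (hS i)
    · exact Or.inl ((isMinor_iff _ _).1 hu))
  exact ⟨i, j, hij, (isMinor_iff _ _).2 hm⟩

end Pool.Agent.Helper52.Kept.AbelianGroups266
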